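import Mathlib

namespace Pool.Agent.Results.MP_3f07b9_an.StaysAway

open Finset

/-- the mean of a vector -/
noncomputable def mean {n : ℕ} (x : Fin n → ℝ) : ℝ := (∑ k, x k) / n

/-- the Pearson correlation -/
noncomputable def corr {n : ℕ} (x y : Fin n → ℝ) : ℝ :=
  (∑ k, (x k - mean x) * (y k - mean y)) /
    Real.sqrt ((∑ k, (x k - mean x) ^ 2) * ∑ k, (y k - mean y) ^ 2)

/-- the correlation map: correlations of the rows -/
noncomputable def corrMap {n : ℕ} (A : Matrix (Fin n) (Fin n) ℝ) : Matrix (Fin n) (Fin n) ℝ :=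
  Matrix.of fun i j => corr (A i) (A j)

/-- normalised centred vector -/
noncomputable def unit {n : ℕ} (x : Fin n → ℝ) : Fin n → ℝ :=
  fun k => (x k - mean x) / Real.sqrt (∑ k, (x k - mean x) ^ 2)

lemma var_pos {n : ℕ} {x : Fin n → ℝ} (h : ∃ k l, x k ≠ x l) : 0 < ∑ k, (x k - mean x) ^ 2 := by
  obtain ⟨k, l, hkl⟩ := h
  have : ∃ m, x m ≠ mean x := by
    by_contra hc
    push Not at hc
    exact hkl ((hc k).trans (hc l).symm)
  obtain ⟨m, hm⟩ := this
  exact sum_pos' (fun _ _ => sq_nonneg _) ⟨m, mem_univ _, by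
    have := sub_ne_zero.2 hm
    positivity⟩

lemma corr_eq {n : ℕ} (x y : Fin n → ℝ) : corr x y = ∑ k, unit x k * unit y k := by
  unfold corr unit
  rw [Real.sqrt_mul (sum_nonneg fun _ _ => sq_nonneg _), sum_div]
  refine sum_congr rfl fun k _ => ?_
  rw [div_mul_div_comm]

lemma unit_sq {n : ℕ} {x : Fin n → ℝ} (h : ∃ k l, x k ≠ x l) : ∑ k, unit x k ^ 2 = 1 := by
  have hv := var_pos h
  unfold unit
  simp only [div_pow, Real.sq_sqrt hv.le]
  rw [← sum_div, div_self hv.ne']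

lemma unit_sum {n : ℕ} (hn : 0 < n) (x : Fin n → ℝ) : ∑ k, unit x k = 0 := by
  unfold unit
  have : (n : ℝ) ≠ 0 := by positivity
  rw [← sum_div, sum_sub_distrib, sum_const, card_univ, Fintype.card_fin, nsmul_eq_mul, mean,
    mul_div_cancel₀ _ this, sub_self, zero_div]

lemma exists_low {n : ℕ} (hn : 0 < n) {u : Fin n → ℝ} (h0 : ∑ k, u k = 0) (h1 : ∑ k, u k ^ 2 = 1) :
    ∃ j, u j ≤ -(1 / (n : ℝ) ^ 2) := by
  have hn' : (1 : ℝ) ≤ n := by exact_mod_cast hn
  by_contra hc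
  push Not at hc
  have hb : ∀ k, u k ≤ (n - 1) / (n : ℝ) ^ 2 := by
    intro k
    have e1 := add_sum_erase univ u (mem_univ k)
    have e2 : ∑ _l ∈ univ.erase k, -(1 / (n : ℝ) ^ 2) ≤ ∑ l ∈ univ.erase k, u l :=
      sum_le_sum fun l _ => (hc l).le
    rw [sum_const, card_erase_of_mem (mem_univ k), card_univ, Fintype.card_fin, nsmul_eq_mul,
      Nat.cast_sub hn, Nat.cast_one] at e2
    have : ((n : ℝ) - 1) / (n : ℝ) ^ 2 = -((n - 1) * -(1 / (n : ℝ) ^ 2)) := by ring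
    linarith
  have hs : ∀ k, u k ^ 2 ≤ (1 / (n : ℝ)) ^ 2 := by
    intro k
    have a1 : ((n : ℝ) - 1) / (n : ℝ) ^ 2 ≤ 1 / n := by
      rw [div_le_div_iff₀ (by positivity) (by positivity)]
      nlinarith
    have a2 : 1 / (n : ℝ) ^ 2 ≤ 1 / n := by
      rw [div_le_div_iff₀ (by positivity) (by positivity)]
      nlinarith
    exact sq_le_sq' (by linarith [hc k]) (by linarith [hb k])
  have h2 : ∑ k, u k ^ 2 ≤ ∑ _k : Fin n, (1 / (n : ℝ)) ^ 2 := sum_le_sum fun k _ => hs k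
  rw [h1, sum_const, card_univ, Fintype.card_fin, nsmul_eq_mul] at h2
  have h3 : (n : ℝ) * (1 / (n : ℝ)) ^ 2 = 1 / n := by field_simp
  rw [h3, le_div_iff₀ (by positivity)] at h2
  have hn1 : (n : ℝ) = 1 := by linarith
  have hn2 : n = 1 := by exact_mod_cast hn1
  subst hn2
  simp only [univ_unique, sum_singleton] at h0 h1
  rw [h0] at h1
  norm_num at h1

lemma entry_le {n : ℕ} {A : Matrix (Fin n) (Fin n) ℝ} (hA : A.PosSemidef) (hd : ∀ i, A i i = 1)
    (i j : Fin n) : A i j ≤ 1 := by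
  by_cases hij : i = j
  · rw [hij, hd]
  have h := hA.dotProduct_mulVec_nonneg (Pi.single i 1 - Pi.single j 1)
  have hs : A j i = A i j := by simpa using hA.isHermitian.apply i j
  simp only [star_trivial, Matrix.mulVec_sub, Matrix.mulVec_single_one, sub_dotProduct,
    dotProduct_sub, single_one_dotProduct, Matrix.col_apply, hd, hs] at h
  linarith

lemma row_nonconst {n : ℕ} {A : Matrix (Fin n) (Fin n) ℝ} (hA : A.PosSemidef)
    (hd : ∀ i, A i i = 1) (hne : A ≠ Matrix.of fun _ _ => 1) (i : Fin n) :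
    ∃ k l, A i k ≠ A i l := by
  by_contra hc
  push Not at hc
  have h1 : ∀ k, A i k = 1 := fun k => (hc k i).trans (hd i)
  have hs : ∀ a b, A b a = A a b := fun a b => by simpa using hA.isHermitian.apply a b
  apply hne
  ext j k
  have h := hA.dotProduct_mulVec_nonneg
    (Pi.single j 1 + Pi.single k 1 - Pi.single i 1 - Pi.single i 1)
  simp only [star_trivial, Matrix.mulVec_sub, Matrix.mulVec_add, Matrix.mulVec_single_one,
    sub_dotProduct, add_dotProduct, dotProduct_sub, dotProduct_add, single_one_dotProduct,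
    Matrix.col_apply, hd, h1, hs i, hs j k] at h
  have := entry_le hA hd j k
  simp only [Matrix.of_apply]
  linarith

lemma step {n : ℕ} (hn : 0 < n) {A : Matrix (Fin n) (Fin n) ℝ} (hA : A.PosSemidef)
    (hd : ∀ i, A i i = 1) (hne : A ≠ Matrix.of fun _ _ => 1) :
    (corrMap A).PosSemidef ∧ (∀ i, corrMap A i i = 1) ∧
      ∃ i j, 1 / (2 * (n : ℝ) ^ 4) ≤ |corrMap A i j - 1| := by
  have hr := row_nonconst hA hd hne
  refine ⟨?_, fun i => ?_, ?_⟩
  · have : corrMap A = (Matrix.of fun i => unit (A i)) * (Matrix.of fun i => unit (A i)).conjTranspose := by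
      ext i j
      simp [corrMap, corr_eq, Matrix.mul_apply]
    rw [this]
    exact Matrix.posSemidef_self_mul_conjTranspose _
  · simp only [corrMap, Matrix.of_apply, corr_eq, ← sq]
    exact unit_sq (hr i)
  · obtain ⟨j, hj⟩ := exists_low hn (unit_sum hn (A ⟨0, hn⟩)) (unit_sq (hr ⟨0, hn⟩))
    refine ⟨⟨0, hn⟩, j, ?_⟩
    have hn' : (0 : ℝ) < n := by exact_mod_cast hn
    have hjj : 0 ≤ unit (A j) j := by
      refine div_nonneg ?_ (Real.sqrt_nonneg _)
      have : ∑ k, A j k ≤ ∑ _k : Fin n, (1 : ℝ) := sum_le_sum fun k _ => entry_le hA hd j k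
      rw [sum_const, card_univ, Fintype.card_fin, nsmul_eq_mul, mul_one] at this
      rw [hd, mean, sub_nonneg, div_le_one hn']
      exact this
    have e1 : (unit (A j) j - unit (A ⟨0, hn⟩) j) ^ 2 ≤
        ∑ k, (unit (A j) k - unit (A ⟨0, hn⟩) k) ^ 2 :=
      single_le_sum (f := fun k => (unit (A j) k - unit (A ⟨0, hn⟩) k) ^ 2)
        (fun _ _ => sq_nonneg _) (mem_univ j)
    have e2 : ∑ k, (unit (A j) k - unit (A ⟨0, hn⟩) k) ^ 2 = 2 - 2 * corrMap A ⟨0, hn⟩ j := by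
      have : ∀ k, (unit (A j) k - unit (A ⟨0, hn⟩) k) ^ 2 = unit (A j) k ^ 2 +
          unit (A ⟨0, hn⟩) k ^ 2 - 2 * (unit (A ⟨0, hn⟩) k * unit (A j) k) := fun k => by ring
      simp only [this, sum_sub_distrib, sum_add_distrib, unit_sq (hr _), ← mul_sum, corrMap,
        Matrix.of_apply, corr_eq]
      ring
    have e3 : (1 / (n : ℝ) ^ 2) ^ 2 ≤ (unit (A j) j - unit (A ⟨0, hn⟩) j) ^ 2 :=
      pow_le_pow_left₀ (by positivity) (by linarith) 2
    have e4 : 1 / (2 * (n : ℝ) ^ 4) = (1 / (n : ℝ) ^ 2) ^ 2 / 2 := by field_simp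
    rw [e4, abs_sub_comm]
    exact le_trans (by linarith) (le_abs_self _)

theorem result (n : ℕ) (A : ℕ → Matrix (Fin n) (Fin n) ℝ)
    (hpsd : (A 0).PosSemidef) (hdiag : ∀ i, A 0 i i = 1) (hne : A 0 ≠ Matrix.of fun _ _ => 1)
    (hstep : ∀ k, A (k + 1) = corrMap (A k)) :
    (∀ k i, ∃ a b, A k i a ≠ A k i b) ∧
      ∃ c : ℝ, 0 < c ∧ ∀ k, ∃ i j, c ≤ |A k i j - 1| := by
  have hn : 0 < n := by
    rcases Nat.eq_zero_or_pos n with h | h
    · subst h
      exact absurd (Subsingleton.elim _ _) hne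
    · exact h
  have hc : 0 < 1 / (2 * (n : ℝ) ^ 4) := by positivity
  have key : ∀ k, (A k).PosSemidef ∧ (∀ i, A k i i = 1) ∧ A k ≠ Matrix.of fun _ _ => 1 := by
    intro k
    induction k with
    | zero => exact ⟨hpsd, hdiag, hne⟩
    | succ k ih =>
      obtain ⟨h1, h2, i, j, h3⟩ := step hn ih.1 ih.2.1 ih.2.2
      rw [hstep]
      refine ⟨h1, h2, fun h => ?_⟩
      rw [h] at h3
      simp only [Matrix.of_apply, sub_self, abs_zero] at h3
      linarith
  refine ⟨fun k i => row_nonconst (key k).1 (key k).2.1 (key k).2.2 i, ?_⟩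
  obtain ⟨i, j, hij⟩ : ∃ i j, A 0 i j ≠ 1 := by
    by_contra hcon
    push Not at hcon
    exact hne (by ext i j; exact hcon i j)
  have h0 : 0 < |A 0 i j - 1| := abs_pos.2 (sub_ne_zero.2 hij)
  refine ⟨min |A 0 i j - 1| (1 / (2 * (n : ℝ) ^ 4)), lt_min h0 hc, fun k => ?_⟩
  cases k with
  | zero => exact ⟨i, j, min_le_left _ _⟩
  | succ k =>
    obtain ⟨_, _, i', j', h3⟩ := step hn (key k).1 (key k).2.1 (key k).2.2
    exact ⟨i', j', by rw [hstep]; exact (min_le_right _ _).trans h3⟩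

end Pool.Agent.Results.MP_3f07b9_an.StaysAway
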